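import Pool.Agent.Helper11.LV.Defs

/-!
# Project LV (MP_a499ba_nt), block C1: the inequality of Landau with a truncated transform, both signs
-/

set_option autoImplicit false

namespace Pool.Agent.Helper71.LV

open MeasureTheory Filter Topology

private theorem ex_norm (d τ u : ℝ) : ‖Complex.exp (-(((d : ℂ) + τ * Complex.I) * u))‖ = Real.exp (-(d * u)) := by
  rw [Complex.norm_exp]
  congr 1
  simp

private theorem ex_norm' (d u : ℝ) : ‖Complex.exp (-((d : ℂ) * u))‖ = Real.exp (-(d * u)) := by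
  rw [Complex.norm_exp]
  congr 1
  simp

/-- C1: the inequality of Landau, both signs -/
theorem landau {b : ℝ → ℝ} (hc : Continuous b) (hb : ∀ u, |b u| ≤ 2 * Real.exp (u / 2)) {σ C d τ L : ℝ} (hσ : σ = 1 ∨ σ = -1)
    (hC : 0 ≤ C) (h : ∀ u, σ * b u ≤ C) (hd : 0 < d) (hd1 : d ≤ 1 / 4) (hL : 0 ≤ L) :
    ‖∫ u in Set.Iic L, (b u : ℂ) * Complex.exp (-(((d : ℂ) + τ * Complex.I) * u))‖ ≤
      2 * C / d + 16 + ‖∫ u in Set.Iic L, (b u : ℂ) * Complex.exp (-((d : ℂ) * u))‖ := by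
  have hσ1 : |σ| = 1 := by rcases hσ with h | h <;> simp [h]
  have hσc : ‖(σ : ℂ)‖ = 1 := by rw [Complex.norm_real]; exact hσ1
  -- the part on the left of `0`
  have hdom : ∀ (e : ℝ → ℂ), (∀ u, ‖e u‖ = Real.exp (-(d * u))) → ∀ u : ℝ, ‖(b u : ℂ) * e u‖ ≤ 2 * Real.exp ((1 / 2 - d) * u) := by
    intro e he u
    rw [norm_mul, Complex.norm_real, Real.norm_eq_abs, he]
    calc |b u| * Real.exp (-(d * u)) ≤ (2 * Real.exp (u / 2)) * Real.exp (-(d * u)) :=
          mul_le_mul_of_nonneg_right (hb u) (Real.exp_pos _).le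
      _ = 2 * Real.exp ((1 / 2 - d) * u) := by
          rw [mul_assoc, ← Real.exp_add]
          congr 2
          ring
  have hcc : Continuous fun u : ℝ => (b u : ℂ) := Complex.continuous_ofReal.comp hc
  have hI : ∀ (e : ℝ → ℂ), Continuous e → (∀ u, ‖e u‖ = Real.exp (-(d * u))) → ∀ T : ℝ,
      IntegrableOn (fun u : ℝ => (b u : ℂ) * e u) (Set.Iic T) := by
    intro e hec he T
    refine Integrable.mono' ((integrableOn_exp_mul_Iic (show (0 : ℝ) < 1 / 2 - d by linarith) T).const_mul 2)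
      (hcc.mul hec).aestronglyMeasurable (Eventually.of_forall (hdom e he))
  have hA : ∀ (e : ℝ → ℂ), (∀ u, ‖e u‖ = Real.exp (-(d * u))) → ‖∫ u in Set.Iic (0 : ℝ), (b u : ℂ) * e u‖ ≤ 8 := by
    intro e he
    refine (norm_integral_le_of_norm_le ((integrableOn_exp_mul_Iic (show (0 : ℝ) < 1 / 2 - d by linarith) 0).const_mul 2)
      (Eventually.of_forall (hdom e he))).trans ?_
    rw [integral_const_mul, integral_exp_mul_Iic (by linarith), mul_zero, Real.exp_zero, ← mul_div_assoc, mul_one,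
      div_le_iff₀ (by linarith)]
    linarith
  have hsplit : ∀ (e : ℝ → ℂ), Continuous e → (∀ u, ‖e u‖ = Real.exp (-(d * u))) →
      ∫ u in Set.Iic L, (b u : ℂ) * e u = (∫ u in Set.Iic (0 : ℝ), (b u : ℂ) * e u) + ∫ u in Set.Ioc (0 : ℝ) L, (b u : ℂ) * e u := by
    intro e hec he
    rw [← Set.Iic_union_Ioc_eq_Iic hL, setIntegral_union (Set.Iic_disjoint_Ioc le_rfl) measurableSet_Ioc (hI e hec he 0)]
    exact (hI e hec he L).mono_set Set.Ioc_subset_Iic_self
  -- the real integrals on `(0, L]`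
  have hEi : IntegrableOn (fun u : ℝ => Real.exp (-(d * u))) (Set.Ioc 0 L) :=
    ((by fun_prop : Continuous fun u : ℝ => Real.exp (-(d * u))).integrableOn_Icc).mono_set Set.Ioc_subset_Icc_self
  have hE : ∫ u in Set.Ioc (0 : ℝ) L, Real.exp (-(d * u)) ≤ 1 / d := by
    have h1 : IntegrableOn (fun u : ℝ => Real.exp (-d * u)) (Set.Ioi 0) := integrableOn_exp_mul_Ioi (by linarith) 0
    calc ∫ u in Set.Ioc (0 : ℝ) L, Real.exp (-(d * u)) = ∫ u in Set.Ioc (0 : ℝ) L, Real.exp (-d * u) := by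
          simp only [neg_mul]
      _ ≤ ∫ u in Set.Ioi (0 : ℝ), Real.exp (-d * u) :=
          setIntegral_mono_set h1 (Eventually.of_forall fun u => (Real.exp_pos _).le) (Set.Ioc_subset_Ioi_self.eventuallyLE)
      _ = 1 / d := by
          rw [integral_exp_mul_Ioi (by linarith), mul_zero, Real.exp_zero, neg_div_neg_eq]
  set e1 : ℝ → ℂ := fun u => Complex.exp (-(((d : ℂ) + τ * Complex.I) * u)) with he1
  set e0 : ℝ → ℂ := fun u => Complex.exp (-((d : ℂ) * u)) with he0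
  have c1 : Continuous e1 := by rw [he1]; fun_prop
  have c0 : Continuous e0 := by rw [he0]; fun_prop
  have n1 : ∀ u, ‖e1 u‖ = Real.exp (-(d * u)) := fun u => ex_norm d τ u
  have n0 : ∀ u, ‖e0 u‖ = Real.exp (-(d * u)) := fun u => ex_norm' d u
  have hb0 : IntegrableOn (fun u : ℝ => b u * Real.exp (-(d * u))) (Set.Ioc 0 L) :=
    ((hc.mul (by fun_prop : Continuous fun u : ℝ => Real.exp (-(d * u)))).integrableOn_Icc).mono_set Set.Ioc_subset_Icc_self
  have hB0 : ∫ u in Set.Ioc (0 : ℝ) L, (b u : ℂ) * e0 u = ((∫ u in Set.Ioc (0 : ℝ) L, b u * Real.exp (-(d * u)) : ℝ) : ℂ) := by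
    rw [← integral_complex_ofReal]
    refine integral_congr_ae (Eventually.of_forall fun u => ?_)
    simp only [he0]
    push_cast
    rfl
  have hpos : ‖∫ u in Set.Ioc (0 : ℝ) L, ((C - σ * b u : ℝ) : ℂ) * e1 u‖ ≤
      C / d + ‖∫ u in Set.Ioc (0 : ℝ) L, (b u : ℂ) * e0 u‖ := by
    have h1 : IntegrableOn (fun u : ℝ => (C - σ * b u) * Real.exp (-(d * u))) (Set.Ioc 0 L) := by
      refine ((hEi.const_mul C).sub (hb0.const_mul σ)).congr (Eventually.of_forall fun u => ?_)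
      simp only [Pi.sub_apply]
      ring
    refine (norm_integral_le_of_norm_le h1 (Eventually.of_forall fun u => ?_)).trans ?_
    · rw [norm_mul, n1, Complex.norm_real, Real.norm_eq_abs, abs_of_nonneg (by linarith [h u])]
    · have h2 : ∫ u in Set.Ioc (0 : ℝ) L, (C - σ * b u) * Real.exp (-(d * u)) =
          C * (∫ u in Set.Ioc (0 : ℝ) L, Real.exp (-(d * u))) - σ * ∫ u in Set.Ioc (0 : ℝ) L, b u * Real.exp (-(d * u)) := by
        rw [← integral_const_mul, ← integral_const_mul, ← integral_sub (hEi.const_mul C) (hb0.const_mul σ)]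
        refine integral_congr_ae (Eventually.of_forall fun u => ?_)
        simp only
        ring
      rw [h2, hB0, Complex.norm_real, Real.norm_eq_abs]
      have h3 := mul_le_mul_of_nonneg_left hE hC
      rw [mul_one_div] at h3
      have h4 : -(σ * ∫ u in Set.Ioc (0 : ℝ) L, b u * Real.exp (-(d * u))) ≤ |∫ u in Set.Ioc (0 : ℝ) L, b u * Real.exp (-(d * u))| := by
        refine (neg_le_abs _).trans ?_
        rw [abs_mul, hσ1, one_mul]
      linarith
  have hCe : ‖∫ u in Set.Ioc (0 : ℝ) L, (C : ℂ) * e1 u‖ ≤ C / d := by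
    refine (norm_integral_le_of_norm_le (hEi.const_mul C) (Eventually.of_forall fun u => ?_)).trans ?_
    · rw [norm_mul, n1, Complex.norm_real, Real.norm_eq_abs, abs_of_nonneg hC]
    · rw [integral_const_mul]
      have h3 := mul_le_mul_of_nonneg_left hE hC
      rwa [mul_one_div] at h3
  have hB1 : ‖∫ u in Set.Ioc (0 : ℝ) L, (b u : ℂ) * e1 u‖ ≤ 2 * C / d + ‖∫ u in Set.Ioc (0 : ℝ) L, (b u : ℂ) * e0 u‖ := by
    have i1 : IntegrableOn (fun u : ℝ => (C : ℂ) * e1 u) (Set.Ioc 0 L) :=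
      ((continuous_const.mul c1).integrableOn_Icc).mono_set Set.Ioc_subset_Icc_self
    have i2 : IntegrableOn (fun u : ℝ => ((C - σ * b u : ℝ) : ℂ) * e1 u) (Set.Ioc 0 L) :=
      (((Complex.continuous_ofReal.comp (continuous_const.sub (continuous_const.mul hc))).mul c1).integrableOn_Icc).mono_set
        Set.Ioc_subset_Icc_self
    have h1 : (σ : ℂ) * ∫ u in Set.Ioc (0 : ℝ) L, (b u : ℂ) * e1 u =
        (∫ u in Set.Ioc (0 : ℝ) L, (C : ℂ) * e1 u) - ∫ u in Set.Ioc (0 : ℝ) L, ((C - σ * b u : ℝ) : ℂ) * e1 u := by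
      rw [← integral_const_mul, ← integral_sub i1 i2]
      refine integral_congr_ae (Eventually.of_forall fun u => ?_)
      simp only
      push_cast
      ring
    have h2 : ‖∫ u in Set.Ioc (0 : ℝ) L, (b u : ℂ) * e1 u‖ = ‖(σ : ℂ) * ∫ u in Set.Ioc (0 : ℝ) L, (b u : ℂ) * e1 u‖ := by
      rw [norm_mul, hσc, one_mul]
    rw [h2, h1]
    refine (norm_sub_le _ _).trans ?_
    have : 2 * C / d = C / d + C / d := by ring
    linarith
  have g1 := hsplit e1 c1 n1
  have g0 := hsplit e0 c0 n0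
  have a1 := hA e1 n1
  have a0 := hA e0 n0
  have g2 : ‖∫ u in Set.Ioc (0 : ℝ) L, (b u : ℂ) * e0 u‖ ≤ ‖∫ u in Set.Iic L, (b u : ℂ) * e0 u‖ + 8 := by
    have : ∫ u in Set.Ioc (0 : ℝ) L, (b u : ℂ) * e0 u =
        (∫ u in Set.Iic L, (b u : ℂ) * e0 u) - ∫ u in Set.Iic (0 : ℝ), (b u : ℂ) * e0 u := by rw [g0]; ring
    rw [this]
    refine (norm_sub_le _ _).trans ?_
    linarith
  rw [g1]
  refine (norm_add_le _ _).trans ?_
  linarith

end Pool.Agent.Helper71.LV
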