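import Pool.Agent.Helper11.LV.QDefs

/-!
# Project LV (MP_a499ba_nt), block C3: the weight of the functional
-/

set_option autoImplicit false

namespace Pool.Agent.Helper71.LV

open Finset MeasureTheory Pool.Agent.QT Pool.Agent.Helper11.LV Filter Topology

theorem gk_pos (y : ℝ) : 0 < gk 1 y := by
  unfold gk
  have := Real.pi_pos
  have : 0 < Real.sqrt (2 * Real.pi) := Real.sqrt_pos.2 (by positivity)
  positivity

theorem gk_cont : Continuous (gk 1) := by
  unfold gk
  fun_prop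

/-- the transform of the kernel -/
theorem gk_tr (z : ℂ) :
    Integrable (fun y : ℝ => (gk 1 y : ℂ) * Complex.exp (-(z * y))) ∧
      ∫ y : ℝ, (gk 1 y : ℂ) * Complex.exp (-(z * y)) = Complex.exp (z ^ 2 / 2) := by
  have hpi := Real.pi_pos
  have hs : 0 < Real.sqrt (2 * Real.pi) := Real.sqrt_pos.2 (by positivity)
  have hbc : (-(1 / 2 : ℂ)).re < 0 := by norm_num
  have he : (fun y : ℝ => (gk 1 y : ℂ) * Complex.exp (-(z * y))) = fun y : ℝ =>
      (((Real.sqrt (2 * Real.pi))⁻¹ : ℝ) : ℂ) * Complex.exp (-(1 / 2 : ℂ) * (y : ℂ) ^ 2 + -z * y + 0) := by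
    funext y
    unfold gk
    push_cast
    rw [add_zero, Complex.exp_add, one_mul, mul_assoc]
    congr 2
    · congr 1
      ring
    · congr 1
      ring
  rw [he]
  refine ⟨(integrable_cexp_quadratic' hbc _ _).const_mul _, ?_⟩
  rw [integral_const_mul, integral_cexp_quadratic hbc]
  have h1 : ((Real.pi : ℂ) / -(-(1 / 2 : ℂ))) ^ (1 / 2 : ℂ) = ((Real.sqrt (2 * Real.pi) : ℝ) : ℂ) := by
    rw [Real.sqrt_eq_rpow, Complex.ofReal_cpow (by positivity)]
    push_cast
    congr 1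
    ring
  rw [h1, ← mul_assoc, ← Complex.ofReal_mul, inv_mul_cancel₀ hs.ne', Complex.ofReal_one, one_mul]
  congr 1
  ring

/-- the transform of the weight -/
theorem hh_tr {z : ℂ} (hz : -(1 / 2) < z.re) :
    Integrable (fun v : ℝ => (hh v : ℂ) * Complex.exp (-(z * v))) ∧
      ∫ v : ℝ, (hh v : ℂ) * Complex.exp (-(z * v)) = gz z := by
  set f : ℝ → ℂ := (Set.Ioi (0 : ℝ)).indicator (fun t => Complex.exp (-(1 / 2 + z) * t)) with hf
  set g : ℝ → ℂ := fun y => (gk 1 y : ℂ) * Complex.exp (-(z * y)) with hg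
  have hre : (-(1 / 2 + z)).re < 0 := by
    simp only [Complex.neg_re, Complex.add_re, Complex.div_ofNat_re, Complex.one_re]
    linarith
  have hfi : Integrable f := by
    rw [hf, integrable_indicator_iff measurableSet_Ioi]
    exact integrableOn_exp_mul_complex_Ioi hre 0
  have hfv : ∫ t, f t = 1 / (1 / 2 + z) := by
    rw [hf, integral_indicator measurableSet_Ioi, integral_exp_mul_complex_Ioi hre 0]
    simp only [Complex.ofReal_zero, mul_zero, Complex.exp_zero, neg_div_neg_eq]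
  obtain ⟨hgi, hgv⟩ := gk_tr z
  have hconv : ∀ v : ℝ, (MeasureTheory.convolution f g (ContinuousLinearMap.mul ℝ ℂ) volume) v = (hh v : ℂ) * Complex.exp (-(z * v)) := by
    intro v
    unfold hh MeasureTheory.convolution
    simp only [ContinuousLinearMap.mul_apply']
    rw [← integral_complex_ofReal, ← integral_mul_const, ← integral_indicator measurableSet_Ioi]
    refine integral_congr_ae (Eventually.of_forall fun t => ?_)
    simp only [hf, hg, Set.indicator_apply]
    split_ifs with h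
    · push_cast
      rw [show -(1 / 2 + z) * (t : ℂ) = -((t : ℂ) / 2) + -(z * t) by ring, Complex.exp_add,
        show -(z * ((v : ℂ) - t)) = -(z * v) + z * t by ring, Complex.exp_add]
      have : Complex.exp (-(z * t)) * Complex.exp (z * t) = 1 := by rw [← Complex.exp_add]; simp
      linear_combination (Complex.exp (-((t : ℂ) / 2)) * (gk 1 (v - t) : ℂ) * Complex.exp (-(z * v))) * this
    · simp
  constructor
  · refine (hfi.integrable_convolution (ContinuousLinearMap.mul ℝ ℂ) hgi).congr (Eventually.of_forall fun v => ?_)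
    exact hconv v
  · rw [show (fun v : ℝ => (hh v : ℂ) * Complex.exp (-(z * v))) = MeasureTheory.convolution f g (ContinuousLinearMap.mul ℝ ℂ) volume from
      funext fun v => (hconv v).symm, integral_convolution _ hfi hgi, ContinuousLinearMap.mul_apply', hfv, hgv]
    unfold gz
    ring

theorem hh_nonneg (v : ℝ) : 0 ≤ hh v := by
  unfold hh
  exact integral_nonneg fun t => mul_nonneg (Real.exp_pos _).le (gk_pos _).le

/-- the real form -/
theorem hh_re {a : ℝ} (ha : -(1 / 2) < a) :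
    Integrable (fun v : ℝ => hh v * Real.exp (-(a * v))) ∧
      ∫ v : ℝ, hh v * Real.exp (-(a * v)) = Real.exp (a ^ 2 / 2) / (1 / 2 + a) := by
  obtain ⟨h1, h2⟩ := hh_tr (z := (a : ℂ)) (by simpa using ha)
  have he : (fun v : ℝ => (hh v : ℂ) * Complex.exp (-((a : ℂ) * v))) = fun v : ℝ => ((hh v * Real.exp (-(a * v)) : ℝ) : ℂ) := by
    funext v
    push_cast
    rfl
  rw [he] at h1 h2
  constructor
  · have := h1.re
    refine this.congr (Eventually.of_forall fun v => ?_)
    exact Complex.ofReal_re _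
  · rw [integral_complex_ofReal] at h2
    have h3 : gz (a : ℂ) = ((Real.exp (a ^ 2 / 2) / (1 / 2 + a) : ℝ) : ℂ) := by
      unfold gz
      push_cast
      rfl
    rw [h3] at h2
    exact_mod_cast h2

theorem norm_term (z : ℂ) (v : ℝ) : ‖(hh v : ℂ) * Complex.exp (-(z * v))‖ = hh v * Real.exp (-(z.re * v)) := by
  rw [norm_mul, Complex.norm_real, Real.norm_eq_abs, abs_of_nonneg (hh_nonneg v), Complex.norm_exp]
  congr 2
  simp

/-- exponential domination on a measurable set -/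
theorem set_le {z : ℂ} {S : Set ℝ} (hS : MeasurableSet S) {a c : ℝ} (ha : -(1 / 2) < a)
    (h : ∀ v ∈ S, -(z.re * v) ≤ c - a * v) :
    ‖∫ v in S, (hh v : ℂ) * Complex.exp (-(z * v))‖ ≤ Real.exp c * (Real.exp (a ^ 2 / 2) / (1 / 2 + a)) := by
  obtain ⟨h1, h2⟩ := hh_re ha
  calc ‖∫ v in S, (hh v : ℂ) * Complex.exp (-(z * v))‖ ≤ ∫ v in S, Real.exp c * (hh v * Real.exp (-(a * v))) := by
        apply norm_integral_le_of_norm_le (h1.const_mul _).integrableOn
        filter_upwards [ae_restrict_mem hS] with v hv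
        rw [norm_term, ← mul_assoc, mul_comm (Real.exp c), mul_assoc, ← Real.exp_add]
        apply mul_le_mul_of_nonneg_left _ (hh_nonneg v)
        apply Real.exp_le_exp.mpr
        have := h v hv
        linarith
    _ ≤ ∫ v : ℝ, Real.exp c * (hh v * Real.exp (-(a * v))) := by
        apply setIntegral_le_integral (h1.const_mul _)
        exact Eventually.of_forall fun v => mul_nonneg (Real.exp_pos _).le (mul_nonneg (hh_nonneg v) (Real.exp_pos _).le)
    _ = _ := by rw [integral_const_mul, h2]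

theorem exp_small {x : ℝ} (hx : x ≤ 1 / 8) : Real.exp x ≤ 8 / 7 := by
  have h1 := Real.add_one_le_exp (-x)
  have h2 : 7 / 8 ≤ Real.exp (-x) := by linarith
  have h3 : Real.exp x * Real.exp (-x) = 1 := by rw [← Real.exp_add]; simp
  have h4 := Real.exp_pos x
  nlinarith

theorem Hh_le {z : ℂ} (hz : 0 < z.re) (hz1 : z.re ≤ 1 / 4) (x : ℝ) : ‖Hh z x‖ ≤ 4 := by
  unfold Hh
  refine (set_le (z := z) measurableSet_Iic (a := z.re) (c := 0) (by linarith) (fun v _ => by linarith)).trans ?_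
  rw [Real.exp_zero, one_mul, div_le_iff₀ (by linarith)]
  have h1 : z.re ^ 2 / 2 ≤ 1 / 8 := by nlinarith
  have := exp_small h1
  linarith

theorem Hh_near {z : ℂ} (hz : 0 < z.re) (hz1 : z.re ≤ 1 / 4) {d : ℝ} (hd : 0 < d) (hd1 : d ≤ 1 / 4) (L : ℝ) (n : ℕ) (hn : 1 ≤ n) :
    ‖Hh z (L - Real.log n) - gz z‖ ≤ 4 * ((n : ℝ) / Real.exp L) ^ (d / 2) := by
  have hn0 : (0 : ℝ) < n := by exact_mod_cast hn
  set x := L - Real.log n with hx
  obtain ⟨h1, h2⟩ := hh_tr (z := z) (by linarith)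
  have h3 : Hh z x - gz z = -∫ v in Set.Ioi x, (hh v : ℂ) * Complex.exp (-(z * v)) := by
    rw [← h2, ← integral_add_compl (measurableSet_Iic (a := x)) h1, Set.compl_Iic]
    unfold Hh
    ring
  have h4 : ((n : ℝ) / Real.exp L) ^ (d / 2) = Real.exp (-(x * (d / 2))) := by
    rw [Real.rpow_def_of_pos (by positivity), Real.log_div hn0.ne' (Real.exp_pos _).ne', Real.log_exp]
    congr 1
    rw [hx]
    ring
  rw [h3, norm_neg, h4]
  refine (set_le (z := z) measurableSet_Ioi (a := z.re - d / 2) (c := -(x * (d / 2))) (by linarith)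
    (fun v hv => ?_)).trans ?_
  · have hv' : x < v := hv
    nlinarith
  · rw [mul_comm (4 : ℝ)]
    apply mul_le_mul_of_nonneg_left _ (Real.exp_pos _).le
    rw [div_le_iff₀ (by linarith)]
    have h5 : (z.re - d / 2) ^ 2 / 2 ≤ 1 / 8 := by nlinarith
    have := exp_small h5
    linarith

theorem Hh_tail {z : ℂ} (hz : 0 < z.re) (hz1 : z.re ≤ 1 / 4) {x : ℝ} (hx : x ≤ 0) : ‖Hh z x‖ ≤ 4 * Real.exp (-(x ^ 2 / 4)) := by
  unfold Hh
  refine (set_le (z := z) measurableSet_Iic (a := z.re + -x) (c := -x * x) (by linarith) (fun v hv => ?_)).trans ?_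
  · have hv' : v ≤ x := hv
    nlinarith
  · have h1 : Real.exp (-x * x) * (Real.exp ((z.re + -x) ^ 2 / 2) / (1 / 2 + (z.re + -x))) ≤
        Real.exp (-x * x) * (Real.exp ((z.re + -x) ^ 2 / 2) * 2) := by
      apply mul_le_mul_of_nonneg_left _ (Real.exp_pos _).le
      rw [div_le_iff₀ (by linarith)]
      have := Real.exp_pos ((z.re + -x) ^ 2 / 2)
      nlinarith
    refine h1.trans ?_
    rw [← mul_assoc, ← Real.exp_add]
    have h2 : -x * x + (z.re + -x) ^ 2 / 2 ≤ 1 / 8 + -(x ^ 2 / 4) := by nlinarith [sq_nonneg (x / 2 + z.re)]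
    have h3 := Real.exp_le_exp.mpr h2
    rw [Real.exp_add (1 / 8)] at h3
    have h4 := exp_small (le_refl (1 / 8))
    have h5 := Real.exp_pos (-(x ^ 2 / 4))
    nlinarith

theorem gz_norm (z : ℂ) : ‖gz z‖ = Real.exp ((z.re ^ 2 - z.im ^ 2) / 2) / ‖1 / 2 + z‖ := by
  unfold gz
  rw [norm_div, Complex.norm_exp]
  congr 3
  simp [pow_two]

theorem gz_ge {z : ℂ} (hz : 0 < z.re) (hz1 : ‖z‖ ≤ 1 / 4) : 1 / 2 ≤ ‖gz z‖ := by
  rw [gz_norm]
  have h0 : ‖(1 / 2 : ℂ) + z‖ ≤ 3 / 4 := by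
    refine (norm_add_le _ _).trans ?_
    have : ‖(1 / 2 : ℂ)‖ = 1 / 2 := by norm_num
    rw [this]
    linarith
  have h1 : 0 < ‖(1 / 2 : ℂ) + z‖ := by
    rw [norm_pos_iff]
    intro h
    have := congrArg Complex.re h
    simp at this
    linarith
  rw [le_div_iff₀ h1]
  have h2 : |z.im| ≤ 1 / 4 := (Complex.abs_im_le_norm z).trans hz1
  have h3 : z.im ^ 2 ≤ 1 / 16 := by
    rw [← sq_abs]
    nlinarith [abs_nonneg z.im]
  have h4 := Real.add_one_le_exp ((z.re ^ 2 - z.im ^ 2) / 2)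
  nlinarith [sq_nonneg z.re]

theorem gz_le {z : ℂ} (hz : 0 < z.re) (hz1 : ‖z‖ ≤ 1 / 4) : ‖gz z‖ ≤ 4 := by
  rw [gz_norm]
  have h1 : 1 / 2 ≤ ‖(1 / 2 : ℂ) + z‖ := by
    have := Complex.abs_re_le_norm ((1 / 2 : ℂ) + z)
    refine le_trans ?_ this
    have h : ((1 / 2 : ℂ) + z).re = 1 / 2 + z.re := by simp
    rw [h, abs_of_pos (by linarith)]
    linarith
  rw [div_le_iff₀ (by linarith)]
  have h2 : |z.re| ≤ 1 / 4 := (Complex.abs_re_le_norm z).trans hz1
  have h3 : z.re ^ 2 ≤ 1 / 16 := by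
    rw [← sq_abs]
    nlinarith [abs_nonneg z.re]
  have h4 : (z.re ^ 2 - z.im ^ 2) / 2 ≤ 1 / 8 := by nlinarith [sq_nonneg z.im]
  have := exp_small h4
  linarith

end Pool.Agent.Helper71.LV
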